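import Pool.Agent.SignedCrit.Lower

set_option autoImplicit false

namespace Pool.Agent.Results.MP_c7e63d_co.SignedCritical

open Pool.Agent.SignedCrit

/-- For all positive `n` and `s` the signed `[0,s]`-critical number of the cyclic group of
order `n` equals `vpm n s + 1`. -/
theorem result : ∀ n s : ℕ, 0 < n → 0 < s → (chi n s : ℤ) = vpm n s + 1 := by
  intro n s hn hs
  have : NeZero n := ⟨hn.ne'⟩
  set V : Set ℤ := {x : ℤ | ∃ d ∈ n.divisors,
    x = (2 * (((d : ℤ) - 2) / (2 * (s : ℤ))) + 1) * ((n / d : ℕ) : ℤ)} with hV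
  have hVfin : V.Finite := by
    apply Set.Finite.subset ((Finset.finite_toSet n.divisors).image
      (fun d : ℕ => (2 * (((d : ℤ) - 2) / (2 * (s : ℤ))) + 1) * ((n / d : ℕ) : ℤ)))
    rintro x ⟨d, hd, rfl⟩
    exact ⟨d, hd, rfl⟩
  have hVne : V.Nonempty := ⟨_, 1, Nat.one_mem_divisors.2 hn.ne', rfl⟩
  have hvpm : vpm n s = sSup V := rfl
  have hVbdd : BddAbove V := hVfin.bddAbove
  set P : Set ℕ := {m | ∀ A : Finset (ZMod n), m ≤ A.card → signedInterval s A = Set.univ} with hP
  have hPne : P.Nonempty := by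
    refine ⟨n + 1, fun A hA => ?_⟩
    have := Finset.card_le_univ A
    rw [ZMod.card] at this
    omega
  have hmem : chi n s ∈ P := Nat.sInf_mem hPne
  rw [hvpm]
  apply le_antisymm
  · -- upper bound
    have hle : chi n s ≤ (sSup V + 1).toNat := by
      apply Nat.sInf_le
      intro A hA
      by_contra hne
      obtain ⟨d, hd, hle⟩ := upper hs A hne
      have h1 : (A.card : ℤ) ≤ sSup V := hle.trans (le_csSup hVbdd ⟨d, hd, rfl⟩)
      have h2 : ((sSup V + 1).toNat : ℤ) ≤ A.card := by exact_mod_cast hA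
      have h3 := Int.self_le_toNat (sSup V + 1)
      linarith
    have hnonneg : 0 ≤ sSup V + 1 := by
      obtain ⟨d, hd, hdV⟩ : sSup V ∈ V := Int.csSup_mem hVne hVbdd
      by_contra hneg
      push Not at hneg
      have h1 : (2 * (((n : ℤ) - 2) / (2 * (s : ℤ))) + 1) * ((n / n : ℕ) : ℤ) ≤ sSup V :=
        le_csSup hVbdd ⟨n, Nat.mem_divisors_self n hn.ne', rfl⟩
      rw [Nat.div_self hn] at h1
      have h2 : (-1 : ℤ) ≤ ((n : ℤ) - 2) / (2 * (s : ℤ)) := by
        rw [Int.le_ediv_iff_mul_le (by positivity)]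
        have h3 : (1 : ℤ) ≤ n := by exact_mod_cast hn
        have h4 : (1 : ℤ) ≤ s := by exact_mod_cast hs
        linarith
      push_cast at h1
      linarith
    have h3 : ((sSup V + 1).toNat : ℤ) = sSup V + 1 := Int.toNat_of_nonneg hnonneg
    rw [← h3]
    exact_mod_cast hle
  · -- lower bound
    obtain ⟨d, hd, hdV⟩ : sSup V ∈ V := Int.csSup_mem hVne hVbdd
    rw [hdV]
    have := lower hs hmem hd
    linarith

end Pool.Agent.Results.MP_c7e63d_co.SignedCritical
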